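import Pool.Agent.H937.QS.Stm2

/-! QS-ZIN: the quotients of the elements of the family in a chart. -/

set_option autoImplicit false

open scoped Matrix TensorProduct
open Pool.Agent.H937.QS

universe u

namespace Pool.Agent.H167.QS.ZIN

variable {M : Type u} [Field M]

lemma mulVec_co (N : Matrix (Fin 4) (Fin 4) M) (hd : N.det ≠ 0) (f : Fin 4 → M) :
    N *ᵥ co N f = f := by
  rw [co, Matrix.mulVec_mulVec, Matrix.mul_nonsing_inv N (isUnit_iff_ne_zero.2 hd),
    Matrix.one_mulVec]

lemma det_upd (N : Matrix (Fin 4) (Fin 4) M) (hd : N.det ≠ 0) (f : Fin 4 → M) (m : Fin 4) :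
    (N.updateCol m f).det = N.det * co N f m := by
  have h := congrFun (Matrix.det_smul_inv_mulVec_eq_cramer N f (isUnit_iff_ne_zero.2 hd)) m
  rw [Matrix.cramer_apply] at h
  rw [← h]
  rfl

lemma dsc_eq (N : Matrix (Fin 4) (Fin 4) M) (hd : N.det ≠ 0) :
    dsc N = fun i j m => N.det * sc N i j m := by
  funext i j m
  exact det_upd N hd _ m

lemma pL_mul (c : M) (s : Fin 3 → Fin 3 → Fin 4 → M) (X : Fin 15) :
    pL (fun i j m => c * s i j m) X = c * pL s X := by
  fin_cases X <;> simp [pL] <;> ring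

lemma Lam_eq (N : Matrix (Fin 4) (Fin 4) M) (hd : N.det ≠ 0) (X : Fin 15) :
    Lam N X = N.det * pL (sc N) X := by
  rw [Lam, dsc_eq N hd, pL_mul]

lemma det_mem {n : ℕ} (C : Subring M) (H : Matrix (Fin n) (Fin n) M) (hH : ∀ i l, H i l ∈ C) :
    H.det ∈ C := by
  rw [Matrix.det_apply]
  refine C.sum_mem fun σ _ => ?_
  have h : (∏ i, H (σ i) i) ∈ C := C.prod_mem fun i _ => hH _ _
  rw [Units.smul_def]
  exact C.zsmul_mem h _

theorem t_ZIN (hT : S_T.{u}) : S_ZIN.{u} := by
  intro M _ C N h1 hd h2 hC h x y z hh hx hy hz X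
  refine ⟨Lam_eq N hd X, ?_⟩
  -- the first factor
  have hH : (Matrix.of fun q i => h i q) = N * (Matrix.of fun i r => co N (h r) i) := by
    ext q r
    have e := congrFun (mulVec_co N hd (h r)) q
    rw [Matrix.mulVec, dotProduct] at e
    rw [Matrix.mul_apply]
    simp only [Matrix.of_apply]
    exact e.symm
  have hHdet : (Matrix.of fun i r => co N (h r) i : Matrix (Fin 4) (Fin 4) M).det ∈ C :=
    det_mem C _ fun i l => hh l i
  -- the second factor
  have h10 : co N (fun _ => 1) = Pi.single 0 1 := by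
    have e : N *ᵥ (Pi.single 0 1 : Fin 4 → M) = fun _ => 1 := by
      funext q
      rw [Matrix.mulVec_single_one, Matrix.col_apply]
      exact h1 q
    rw [← e, co, Matrix.mulVec_mulVec, Matrix.nonsing_inv_mul N (isUnit_iff_ne_zero.2 hd),
      Matrix.one_mulVec]
  let G : Matrix (Fin 4) (Fin 4) M :=
    Matrix.of fun i l => (![co N (fun _ => 1), co N x, co N y, co N z] : Fin 4 → Fin 4 → M) l i
  have hG : cols x y z = N * G := by
    ext q l
    rw [Matrix.mul_apply]
    have e : ∀ f : Fin 4 → M, f q = ∑ i, N q i * co N f i := by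
      intro f
      have e := congrFun (mulVec_co N hd f) q
      rw [Matrix.mulVec, dotProduct] at e
      exact e.symm
    fin_cases l
    · exact e fun _ => 1
    · exact e x
    · exact e y
    · exact e z
  have hGC : ∀ i l, G i l ∈ C := by
    intro i l
    fin_cases l
    · change co N (fun _ => 1) i ∈ C
      rw [h10, Pi.single_apply]
      split_ifs
      · exact C.one_mem
      · exact C.zero_mem
    · exact hx i
    · exact hy i
    · exact hz i
  have hG0 : ∀ i, G i 0 = if i = 0 then 1 else 0 := by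
    intro i
    change co N (fun _ => 1) i = _
    rw [h10, Pi.single_apply]
  obtain ⟨c, hc, hcX⟩ := hT M C N h1 hd (pL (sc N) 2)
    (fun X => ⟨pL (sc N) X / pL (sc N) 2, hC X, (mul_div_cancel₀ _ h2).symm ▸ rfl⟩) G hGC hG0 X
  rw [hH, Matrix.det_mul, hG, hcX, Lam_eq N hd 2]
  have e : N.det * (Matrix.of fun i r => co N (h r) i : Matrix (Fin 4) (Fin 4) M).det *
      (N.det * (pL (sc N) 2 * c)) / (N.det * (N.det * pL (sc N) 2)) =
      (Matrix.of fun i r => co N (h r) i : Matrix (Fin 4) (Fin 4) M).det * c := by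
    field_simp
  rw [e]
  exact C.mul_mem hHdet hc

end Pool.Agent.H167.QS.ZIN
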